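import Mathlib
import Pool.Agent.N662.FP.Stm

/-!
# The lattice is connected; basic facts on the passage time for nonnegative weights
-/

set_option autoImplicit false

open Pool.Agent.N662.FP

namespace Pool.Agent.N263.FL

theorem path_snoc {a v' v : ℤ × ℤ}
    (h : ∃ n : ℕ, ∃ p : ℕ → ℤ × ℤ, p 0 = a ∧ p n = v' ∧
      ∀ i < n, |(p (i + 1)).1 - (p i).1| + |(p (i + 1)).2 - (p i).2| = 1)
    (hv : |v.1 - v'.1| + |v.2 - v'.2| = 1) :
    ∃ n : ℕ, ∃ p : ℕ → ℤ × ℤ, p 0 = a ∧ p n = v ∧
      ∀ i < n, |(p (i + 1)).1 - (p i).1| + |(p (i + 1)).2 - (p i).2| = 1 := by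
  obtain ⟨n, p, h0, hn, hs⟩ := h
  refine ⟨n + 1, fun i => if i ≤ n then p i else v, ?_, ?_, ?_⟩
  · simp [h0]
  · simp
  · intro i hi
    by_cases h1 : i < n
    · have e1 : i + 1 ≤ n := h1
      simp only [if_pos e1, if_pos h1.le]
      exact hs i h1
    · have e1 : i = n := by omega
      subst e1
      simp only [le_refl, if_true, if_neg (by omega : ¬ i + 1 ≤ i), hn]
      exact hv

theorem t_PATH : S_PATH := by
  intro a
  have key : ∀ (N : ℕ) (v : ℤ × ℤ), (v.1 - a.1).natAbs + (v.2 - a.2).natAbs = N →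
      ∃ n : ℕ, ∃ p : ℕ → ℤ × ℤ, p 0 = a ∧ p n = v ∧
        ∀ i < n, |(p (i + 1)).1 - (p i).1| + |(p (i + 1)).2 - (p i).2| = 1 := by
    intro N
    induction N with
    | zero =>
      intro v hv
      have h1 : v.1 = a.1 := by omega
      have h2 : v.2 = a.2 := by omega
      exact ⟨0, fun _ => a, rfl, Prod.ext h1.symm h2.symm, fun i hi => absurd hi (Nat.not_lt_zero i)⟩
    | succ N ih =>
      intro v hv
      by_cases h1 : v.1 = a.1
      · rcases lt_trichotomy v.2 a.2 with h2 | h2 | h2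
        · refine path_snoc (ih (v.1, v.2 + 1) ?_) ?_
          · show (v.1 - a.1).natAbs + (v.2 + 1 - a.2).natAbs = N
            omega
          · show |v.1 - v.1| + |v.2 - (v.2 + 1)| = 1
            norm_num
        · omega
        · refine path_snoc (ih (v.1, v.2 - 1) ?_) ?_
          · show (v.1 - a.1).natAbs + (v.2 - 1 - a.2).natAbs = N
            omega
          · show |v.1 - v.1| + |v.2 - (v.2 - 1)| = 1
            norm_num
      · rcases lt_or_gt_of_ne h1 with h2 | h2
        · refine path_snoc (ih (v.1 + 1, v.2) ?_) ?_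
          · show (v.1 + 1 - a.1).natAbs + (v.2 - a.2).natAbs = N
            omega
          · show |v.1 - (v.1 + 1)| + |v.2 - v.2| = 1
            norm_num
        · refine path_snoc (ih (v.1 - 1, v.2) ?_) ?_
          · show (v.1 - 1 - a.1).natAbs + (v.2 - a.2).natAbs = N
            omega
          · show |v.1 - (v.1 - 1)| + |v.2 - v.2| = 1
            norm_num
  intro v
  exact key _ v rfl

theorem t_GE (h : S_PATH) : S_GE := by
  intro x hx a v
  have h0 : ∀ s ∈ PS x a v, 0 ≤ s := by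
    rintro s ⟨n, p, -, -, -, rfl⟩
    exact Finset.sum_nonneg fun i _ => hx _
  have hne : (PS x a v).Nonempty := by
    obtain ⟨n, p, h1, h2, h3⟩ := h a v
    exact ⟨_, n, p, h1, h2, h3, rfl⟩
  have hbd : BddBelow (PS x a v) := ⟨0, h0⟩
  refine ⟨hne, hbd, Real.sInf_nonneg h0, fun t => ⟨fun ht N n _ p h1 h2 h3 => ?_, fun ht => ?_⟩⟩
  · exact ht.trans (csInf_le hbd ⟨n, p, h1, h2, h3, rfl⟩)
  · refine le_csInf hne ?_
    rintro s ⟨n, p, h1, h2, h3, rfl⟩
    exact ht n n le_rfl p h1 h2 h3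

end Pool.Agent.N263.FL
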